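import Pool.Agent.Helper29.SH.Goals

/-!
# Project SH: packet GLF
-/

set_option autoImplicit false

namespace Pool.Agent.Helper1.SH

open Subgroup Pool.H83Shunkov Pool.Agent.Helper29.SH

/-- if `a` has finite order and `a⁻¹ C a ≤ C` then `a C a⁻¹ ≤ C` -/
theorem inv_symm {G : Type} [Group G] {a : G} {C : Subgroup G} (ha : IsOfFinOrder a)
    (hC : Inv a C) : ∀ k ∈ C, a * k * a⁻¹ ∈ C := by
  have h1 : ∀ n : ℕ, ∀ k ∈ C, (a ^ n)⁻¹ * k * a ^ n ∈ C := by
    intro n
    induction n with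
    | zero => intro k hk; simpa using hk
    | succ n ih =>
      intro k hk
      have := hC _ (ih k hk)
      have e : (a ^ (n + 1))⁻¹ * k * a ^ (n + 1) = a⁻¹ * ((a ^ n)⁻¹ * k * a ^ n) * a := by
        rw [pow_succ]; group
      rw [e]; exact this
  obtain ⟨n, hn, h⟩ := isOfFinOrder_iff_pow_eq_one.1 ha
  intro k hk
  have h2 := h1 (n - 1) k hk
  have e : a ^ (n - 1) = a⁻¹ := by
    rw [eq_inv_iff_mul_eq_one, ← pow_succ, Nat.sub_add_cancel hn, h]
  rw [e] at h2
  simpa using h2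

/-- conjugation by `a` as an automorphism of `C` -/
def conjEquiv {G : Type} [Group G] (a : G) (C : Subgroup G) (h1 : ∀ k ∈ C, a⁻¹ * k * a ∈ C)
    (h2 : ∀ k ∈ C, a * k * a⁻¹ ∈ C) : C ≃* C where
  toFun k := ⟨a⁻¹ * k * a, h1 _ k.2⟩
  invFun k := ⟨a * k * a⁻¹, h2 _ k.2⟩
  left_inv k := Subtype.ext (by simp [mul_assoc])
  right_inv k := Subtype.ext (by simp [mul_assoc])
  map_mul' k l := Subtype.ext (by simp [mul_assoc])

theorem t_GLF : S_SSUB → S_LFA → S_GLF := by
  intro hSSUB hLFA G _ C a hG hC hTor hInv ha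
  have hCS : IsShunkov C := hSSUB G C C.subtype C.subtype_injective hG
  have hinf : {g : C | IsOfFinOrder g}.Infinite := by
    intro hfin
    apply hTor
    refine (hfin.image (fun x : C => (x : G))).subset ?_
    rintro t ⟨htC, hto⟩
    refine ⟨⟨t, htC⟩, ?_, rfl⟩
    obtain ⟨n, hn, h'⟩ := isOfFinOrder_iff_pow_eq_one.1 hto
    exact isOfFinOrder_iff_pow_eq_one.2 ⟨n, hn, Subtype.ext (by simpa using h')⟩
  have hrad : (lfRad C : Set C).Infinite := (shunkov_conclusion hC.X hCS hinf).1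
  set L : Subgroup G := (lfRad C).map C.subtype with hL
  have hLinf : (L : Set G).Infinite := by
    intro hfin
    apply hrad
    refine Set.Finite.of_finite_image (f := fun x : C => (x : G)) (hfin.subset ?_)
      (Subtype.val_injective.injOn)
    rintro x ⟨y, hy, rfl⟩
    exact ⟨y, hy, rfl⟩
  have hLlf : IsLocFin L := isLocFin_lfRad.map C.subtype
  have hinv2 := inv_symm ha hInv
  have hLinv : Inv a L := by
    rintro k ⟨y, hy, rfl⟩
    let e := conjEquiv a C hInv hinv2
    have hchar : (lfRad C).map e.toMonoidHom ≤ lfRad C :=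
      (characteristic_iff_map_le.1 lfRad_characteristic) e
    refine ⟨e y, hchar ⟨y, hy, rfl⟩, rfl⟩
  have h := hLFA G a L ha hLinv hLlf
  refine ⟨L ⊔ zpowers a, mem_sup_right (mem_zpowers a), ?_, h⟩
  exact hLinf.mono (by
    have : L ≤ L ⊔ zpowers a := le_sup_left
    exact this)

end Pool.Agent.Helper1.SH
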