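import Pool.Agent.Helper29.SH.Goals

/-!
# Project SH: packet SEP
-/

set_option autoImplicit false

namespace Pool.Agent.Helper1.SH

open Subgroup Pool.H83Shunkov Pool.Agent.Helper29.SH

/-- the quotient by an intersection of two normal subgroups with good quotients is good -/
theorem good_inf {G : Type} [Group G] (N M : Subgroup G) [N.Normal] [M.Normal]
    (hN : Good (G ⧸ N)) (hM : Good (G ⧸ M)) : Good (G ⧸ (N ⊓ M)) := by
  -- the map to `G ⧸ N`
  have hle : N ⊓ M ≤ N.comap (MonoidHom.id G) := inf_le_left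
  let f : G ⧸ (N ⊓ M) →* G ⧸ N := QuotientGroup.map (N ⊓ M) N (MonoidHom.id G) hle
  have hle2 : N ⊓ M ≤ M.comap (MonoidHom.id G) := inf_le_right
  let g : G ⧸ (N ⊓ M) →* G ⧸ M := QuotientGroup.map (N ⊓ M) M (MonoidHom.id G) hle2
  refine good_of_ker_range f ?_ hN
  refine hM.comp (g.comp f.ker.subtype) ?_
  rw [injective_iff_map_eq_one]
  rintro ⟨x, hx⟩ hgx
  apply Subtype.ext
  obtain ⟨y, rfl⟩ := QuotientGroup.mk_surjective x
  have h1 : f (y : G ⧸ (N ⊓ M)) = 1 := hx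
  have h2 : g (y : G ⧸ (N ⊓ M)) = 1 := hgx
  have h3 : ((y : G) : G ⧸ N) = 1 := h1
  have h4 : ((y : G) : G ⧸ M) = 1 := h2
  rw [QuotientGroup.eq_one_iff] at h3 h4
  show ((y : G) : G ⧸ (N ⊓ M)) = 1
  rw [QuotientGroup.eq_one_iff]
  exact ⟨h3, h4⟩

theorem t_SEP : S_SEP := by
  intro G _ hRG N₀ hN₀ hG₀ S hS
  induction S, hS using Set.Finite.induction_on with
  | empty =>
    intro _
    exact ⟨N₀, hN₀, le_rfl, by simp, hG₀⟩
  | @insert s S hs hS ih =>
    intro h
    obtain ⟨N, hN, hle, hav, hgood⟩ := ih (fun t ht => h t (Set.mem_insert_of_mem _ ht))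
    obtain ⟨hs1, hs2⟩ := h s (Set.mem_insert _ _)
    obtain ⟨M, hM, hsM, hMg⟩ := hRG s hs1 hs2
    haveI := hN
    haveI := hM
    refine ⟨N ⊓ M, inferInstance, inf_le_left.trans hle, ?_, good_inf N M hgood hMg⟩
    intro t ht htN
    rcases Set.mem_insert_iff.1 ht with rfl | ht
    · exact hsM htN.2
    · exact hav t ht htN.1

end Pool.Agent.Helper1.SH
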