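import Pool.Agent.Helper29.SH.Goals

/-!
# Project SH: packet SYU
-/

set_option autoImplicit false

namespace Pool.Agent.Helper1.SH

open Subgroup Pool.H83Shunkov Pool.Agent.Helper29.SH

/-- for a finite subgroup, invariance under `a` gives invariance under `a⁻¹` -/
theorem inv_symm_fin {M : Type} [Group M] {a : M} {S : Subgroup M} (hS : (S : Set M).Finite)
    (h : Inv a S) : ∀ s ∈ S, a * s * a⁻¹ ∈ S := by
  haveI : Finite S := hS.to_subtype
  let f : S → S := fun s => ⟨a⁻¹ * s * a, h _ s.2⟩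
  have hf : Function.Injective f := by
    intro s t hst
    have := congrArg Subtype.val hst
    apply Subtype.ext
    simpa [f] using this
  intro s hs
  obtain ⟨t, ht⟩ := (Finite.injective_iff_surjective.1 hf) ⟨s, hs⟩
  have h1 : a⁻¹ * (t : M) * a = s := congrArg Subtype.val ht
  rw [← h1]
  have e : a * (a⁻¹ * (t : M) * a) * a⁻¹ = t := by group
  rw [e]
  exact t.2

theorem t_SYU : S_BIJ → S_SYU := by
  intro hBIJ M _ a K S S' q hKfin hK hFPF hq hSK hS'K hcard hcard' hS hS'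
  haveI : Finite K := hKfin.to_subtype
  haveI : Fact q.Prime := ⟨hq⟩
  have hSfin : (S : Set M).Finite := hKfin.subset hSK
  have hS'fin : (S' : Set M).Finite := hKfin.subset hS'K
  have hc1 : Nat.card (S.subgroupOf K) = q ^ (Nat.card K).factorization q := by
    rw [← hcard]
    exact Nat.card_congr (subgroupOfEquivOfLe hSK).toEquiv
  have hc2 : Nat.card (S'.subgroupOf K) = q ^ (Nat.card K).factorization q := by
    rw [← hcard']
    exact Nat.card_congr (subgroupOfEquivOfLe hS'K).toEquiv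
  let P : Sylow q K := Sylow.ofCard (S.subgroupOf K) hc1
  let P' : Sylow q K := Sylow.ofCard (S'.subgroupOf K) hc2
  obtain ⟨m, hm⟩ := MulAction.exists_smul_eq K P P'
  have hmem : ∀ x : K, x ∈ (P' : Subgroup K) ↔ m⁻¹ * x * m ∈ (P : Subgroup K) := by
    intro x
    rw [← hm]
    rw [Sylow.smul_def, Sylow.pointwise_smul_def]
    rw [Subgroup.mem_pointwise_smul_iff_inv_smul_mem]
    simp [MulAut.smul_def]
  have h2 : ∀ s ∈ S', (m : M)⁻¹ * s * m ∈ S := by
    intro s hs
    have h3 : (⟨s, hS'K hs⟩ : K) ∈ (P' : Subgroup K) := hs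
    have h4 := (hmem _).1 h3
    exact h4
  have h1 : ∀ s ∈ S, (m : M) * s * (m : M)⁻¹ ∈ S' := by
    intro s hs
    have h3 : m⁻¹ * (m * ⟨s, hSK hs⟩ * m⁻¹) * m ∈ (P : Subgroup K) := by
      have e : m⁻¹ * (m * ⟨s, hSK hs⟩ * m⁻¹) * m = (⟨s, hSK hs⟩ : K) := by group
      rw [e]
      exact hs
    exact (hmem _).2 h3
  have hSi := inv_symm_fin hSfin hS
  have hS'i := inv_symm_fin hS'fin hS'
  -- the normalizer
  set N : Subgroup M := K ⊓ normalizer (S : Set M) with hN
  have hNfin : (N : Set M).Finite := hKfin.subset inf_le_left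
  have hNinv : Inv a N := by
    rintro k ⟨hkK, hkN⟩
    refine ⟨hK k hkK, ?_⟩
    have hkN' : ∀ h, h ∈ S ↔ k * h * k⁻¹ ∈ S := mem_normalizer_iff.1 hkN
    have hg : ∀ h, h ∈ S ↔ (a⁻¹ * k * a) * h * (a⁻¹ * k * a)⁻¹ ∈ S := by
      intro h
      constructor
      · intro hh
        have := hS _ ((hkN' _).1 (hSi h hh))
        have e : a⁻¹ * k * a * h * (a⁻¹ * k * a)⁻¹ = a⁻¹ * (k * (a * h * a⁻¹) * k⁻¹) * a := by group
        rw [e]; exact this
      · intro hh
        have h3 := hSi _ hh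
        have e : a * (a⁻¹ * k * a * h * (a⁻¹ * k * a)⁻¹) * a⁻¹ = k * (a * h * a⁻¹) * k⁻¹ := by
          group
        rw [e] at h3
        have h4 := hS _ ((hkN' _).2 h3)
        have e2 : a⁻¹ * (a * h * a⁻¹) * a = h := by group
        rw [e2] at h4
        exact h4
    exact mem_normalizer_iff.2 hg
  have hNF : FPF a N := fun k hk h => hFPF k hk.1 h
  have hyN : a⁻¹ * (m : M)⁻¹ * a * m ∈ N := by
    refine ⟨?_, ?_⟩
    · exact mul_mem (hK _ (inv_mem m.2)) m.2
    · have hg : ∀ h, h ∈ S ↔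
          (a⁻¹ * (m : M)⁻¹ * a * m) * h * (a⁻¹ * (m : M)⁻¹ * a * m)⁻¹ ∈ S := by
        intro h
        constructor
        · intro hh
          have h3 := hS _ (h2 _ (hS'i _ (h1 h hh)))
          have e : (a⁻¹ * (m : M)⁻¹ * a * m) * h * (a⁻¹ * (m : M)⁻¹ * a * m)⁻¹ =
            a⁻¹ * ((m : M)⁻¹ * (a * ((m : M) * h * (m : M)⁻¹) * a⁻¹) * m) * a := by group
          rw [e]; exact h3
        · intro hh
          have h3 := h2 _ (hS' _ (h1 _ (hSi _ hh)))
          have e : (m : M)⁻¹ * (a⁻¹ * ((m : M) * (a * ((a⁻¹ * (m : M)⁻¹ * a * m) * h *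
            (a⁻¹ * (m : M)⁻¹ * a * m)⁻¹) * a⁻¹) * (m : M)⁻¹) * a) * m = h := by group
          rw [e] at h3
          exact h3
      exact mem_normalizer_iff.2 hg
  obtain ⟨k, hkN, hk⟩ := hBIJ M a N hNfin hNinv hNF _ hyN
  have hkm : k * (m : M)⁻¹ = 1 := by
    apply hFPF _ (mul_mem hkN.1 (inv_mem m.2))
    have h5 : (m : M)⁻¹ * a * m = k⁻¹ * a * k := by
      have := congrArg (fun z => a * z) hk
      simpa [mul_assoc] using this
    calc k * (m : M)⁻¹ * a = k * ((m : M)⁻¹ * a * m) * (m : M)⁻¹ := by group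
      _ = k * (k⁻¹ * a * k) * (m : M)⁻¹ := by rw [h5]
      _ = a * (k * (m : M)⁻¹) := by group
  have hkm' : k = m := by
    rwa [mul_inv_eq_one] at hkm
  have hmN : ∀ h, h ∈ S ↔ (m : M) * h * (m : M)⁻¹ ∈ S := by
    have := mem_normalizer_iff.1 hkN.2
    rw [hkm'] at this
    exact this
  ext x
  constructor
  · intro hx
    have h6 : (m : M)⁻¹ * x * m ∈ S := by
      rw [hmN]
      have e : (m : M) * ((m : M)⁻¹ * x * m) * (m : M)⁻¹ = x := by group
      rw [e]; exact hx
    have h7 := h1 _ h6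
    have e : (m : M) * ((m : M)⁻¹ * x * m) * (m : M)⁻¹ = x := by group
    rw [e] at h7
    exact h7
  · intro hx
    have h6 := (hmN _).1 (h2 x hx)
    have e : (m : M) * ((m : M)⁻¹ * x * m) * (m : M)⁻¹ = x := by group
    rw [e] at h6
    exact h6

end Pool.Agent.Helper1.SH
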